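import Pool.Agent.H10.SQ.Key

/-!
# Erdős's conjecture on squares in a square: congruent squares of any directions

The squares may be rotated arbitrarily and independently of each other; only their sides are assumed equal.
-/

set_option autoImplicit false

/-- The closed square with corner `(x, y)`, side `s` and direction `θ` (as in the frozen statement). -/
def Pool.Agent.Results.MP_507520_co.CongruentSquares.Square (x y θ s : ℝ) : Set (ℝ × ℝ) :=
  {p : ℝ × ℝ | ∃ a ∈ Set.Icc (0:ℝ) s, ∃ b ∈ Set.Icc (0:ℝ) s,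
    p = (x + a * Real.cos θ - b * Real.sin θ, y + a * Real.sin θ + b * Real.cos θ)}

/-- `r` closed squares of the same side `s > 0` and any directions `θ i`, inside the closed unit square,
with pairwise disjoint interiors. -/
def Pool.Agent.Results.MP_507520_co.CongruentSquares.IsPacking {r : ℕ} (x y θ : Fin r → ℝ) (s : ℝ) : Prop :=
  0 < s ∧
  (∀ i, Square (x i) (y i) (θ i) s ⊆ Set.Icc (0:ℝ) 1 ×ˢ Set.Icc (0:ℝ) 1) ∧
  (∀ i j, i ≠ j → Disjoint (interior (Square (x i) (y i) (θ i) s))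
    (interior (Square (x j) (y j) (θ j) s)))

namespace Pool.Agent.Results.MP_507520_co.CongruentSquares

open Pool.H10.SQ

lemma toPk' {r : ℕ} {x y θ : Fin r → ℝ} {s : ℝ} (h : IsPacking x y θ s) :
    ∃ q : Fin r → USq, Pk (1 / s) q :=
  toPk x y θ s 1 h.1 h.2.1 h.2.2

lemma total : ∃ c : ℝ, 0 < c ∧ ∀ k m : ℕ, 1 ≤ m → m ≤ 2 * k →
    ∀ (x y θ : Fin (k ^ 2 + m) → ℝ) (s : ℝ), IsPacking x y θ s →
      (((k ^ 2 + m : ℕ) : ℝ) * s) ^ 2 ≤ ((k ^ 2 + m : ℕ) : ℝ)
        - c * min (((k : ℝ) * m) ^ ((1 : ℝ) / 3)) (Real.sqrt (2 * k + 1 - m)) := by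
  have hCM := CM_pos
  have hCM10 := CM_ten
  refine ⟨1 / (32 * CM), by positivity, ?_⟩
  intro k m hm hmk x y θ s h
  obtain ⟨q, hq⟩ := toPk' h
  have hs := h.1
  set X := 1 / s with hX
  have hX0 : 0 < X := by positivity
  set w := min (((k : ℝ) * m) ^ ((1 : ℝ) / 3)) (Real.sqrt (2 * k + 1 - m)) with hw
  have hm1 : (1 : ℝ) ≤ m := by exact_mod_cast hm
  have hmk' : (m : ℝ) ≤ 2 * k := by exact_mod_cast hmk
  have hk0 : (0 : ℝ) ≤ k := Nat.cast_nonneg k
  have hkm : 0 ≤ (k : ℝ) * m := by positivity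
  have hw0 : 0 ≤ w := le_min (Real.rpow_nonneg hkm _) (Real.sqrt_nonneg _)
  have hw3 : w ^ 3 ≤ k * m := by
    have h1 : w ^ 3 ≤ (((k : ℝ) * m) ^ ((1 : ℝ) / 3)) ^ 3 := pow_le_pow_left₀ hw0 (min_le_left _ _) 3
    rw [← Real.rpow_natCast (((k : ℝ) * m) ^ ((1 : ℝ) / 3)) 3, ← Real.rpow_mul hkm] at h1
    norm_num at h1
    exact h1
  have hw2 : w ^ 2 ≤ 2 * k + 1 - m := by
    have h1 : w ^ 2 ≤ (Real.sqrt (2 * k + 1 - m)) ^ 2 := pow_le_pow_left₀ hw0 (min_le_right _ _) 2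
    rwa [Real.sq_sqrt (by linarith)] at h1
  have hcard : (Fintype.card (Fin (k ^ 2 + m)) : ℝ) = (k : ℝ) ^ 2 + m := by
    rw [Fintype.card_fin]; push_cast; ring
  have h1 := waste_w k m hm hmk X hX0.le q hq hcard w hw0 hw3 hw2
  set r : ℝ := (k : ℝ) ^ 2 + m with hr
  have hrc : ((k ^ 2 + m : ℕ) : ℝ) = r := by rw [hr]; push_cast; ring
  rw [hrc]
  have hsX : s = 1 / X := by rw [hX]; field_simp
  have hwr : w ≤ r := by
    have h2 : w ^ 2 ≤ 2 * k := by linarith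
    have h3 : 2 * (k : ℝ) ≤ k ^ 2 + 1 := by nlinarith [sq_nonneg ((k : ℝ) - 1)]
    have h4 : 1 ≤ r := by rw [hr]; nlinarith [sq_nonneg (k : ℝ)]
    by_contra hcon
    push Not at hcon
    nlinarith
  have hr0 : 0 < r := by rw [hr]; nlinarith [sq_nonneg (k : ℝ)]
  -- c₀ w ≤ X² - r
  set u := w / (16 * CM) with hu
  have hu1 : u ≤ X ^ 2 - r := by
    rw [hu, div_le_iff₀ (by positivity)]; linarith
  have hu0 : 0 ≤ u := by positivity
  have hur : u ≤ r := by
    rw [hu, div_le_iff₀ (by positivity)]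
    nlinarith
  have e1 : 1 / (32 * CM) * w = u / 2 := by rw [hu]; field_simp; ring
  rw [e1, hsX]
  have e2 : (r * (1 / X)) ^ 2 = r ^ 2 / X ^ 2 := by field_simp
  rw [e2, div_le_iff₀ (by positivity)]
  have h5 : (r - u / 2) * (r + u) ≤ (r - u / 2) * X ^ 2 := by
    apply mul_le_mul_of_nonneg_left (by linarith) (by linarith)
  nlinarith

/-- There is an absolute constant `c > 0` such that `r = k² + m` congruent squares (`1 ≤ m ≤ 2k`) of side `s`
and of any directions, packed in the unit square, have total side length `S = r s` with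
`S² ≤ r - c · min((k m)^(1/3), √(2k + 1 - m))`. The conjectured value `v` of `f(r)` satisfies `v² ≥ r - 1`, so
`S ≤ v` as soon as `c · min((k m)^(1/3), √(2k + 1 - m)) ≥ 1`, that is for all large `k` and all
`1 ≤ m ≤ 2k - C`. -/
theorem result : ∃ c : ℝ, 0 < c ∧ ∀ r k m : ℕ, r = k ^ 2 + m → 1 ≤ m → m ≤ 2 * k →
    ∀ (x y θ : Fin r → ℝ) (s : ℝ), IsPacking x y θ s →
      ((r : ℝ) * s) ^ 2 ≤ (r : ℝ) - c * min (((k : ℝ) * m) ^ ((1 : ℝ) / 3)) (Real.sqrt (2 * k + 1 - m)) := by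
  obtain ⟨c, hc, h⟩ := total
  refine ⟨c, hc, ?_⟩
  rintro r k m rfl hm hmk x y θ s hP
  exact h k m hm hmk x y θ s hP

end Pool.Agent.Results.MP_507520_co.CongruentSquares
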