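import Pool.Agent.H71.SQ.Lower

/-!
# Erdős's conjecture on squares in a square: mutually parallel squares

The conjectured values of `f(r)` are upper bounds for the total side length of `r` squares in the unit
square whenever the squares are parallel to each other (in any direction, not only that of the unit
square); more generally `∑ s_i / (|cos (θ_i - φ)| + |sin (θ_i - φ)|)` is at most the conjectured value,
for every packing by squares of any directions `θ_i` and for every direction `φ`.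
-/

set_option autoImplicit false

/-- The closed square with corner `(x, y)`, side `s` and direction `θ` (as in the frozen statement). -/
def Pool.Agent.Results.MP_507520_co.MutuallyParallel.Square (x y θ s : ℝ) : Set (ℝ × ℝ) :=
  {p : ℝ × ℝ | ∃ a ∈ Set.Icc (0:ℝ) s, ∃ b ∈ Set.Icc (0:ℝ) s,
    p = (x + a * Real.cos θ - b * Real.sin θ, y + a * Real.sin θ + b * Real.cos θ)}

/-- `r` closed squares of positive sides `s i` and any directions `θ i`, inside the closed unit square,
with pairwise disjoint interiors. -/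
def Pool.Agent.Results.MP_507520_co.MutuallyParallel.IsPacking {r : ℕ} (x y θ s : Fin r → ℝ) : Prop :=
  (∀ i, 0 < s i) ∧
  (∀ i, Square (x i) (y i) (θ i) (s i) ⊆ Set.Icc (0:ℝ) 1 ×ˢ Set.Icc (0:ℝ) 1) ∧
  (∀ i j, i ≠ j → Disjoint (interior (Square (x i) (y i) (θ i) (s i)))
    (interior (Square (x j) (y j) (θ j) (s j))))

namespace Pool.Agent.Results.MP_507520_co.MutuallyParallel

open Pool.H71.SQ

theorem isPacking_iff {r : ℕ} (x y θ s : Fin r → ℝ) : IsPacking x y θ s ↔ Packing x y θ s :=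
  ⟨fun h => ⟨h.1, h.2.1, h.2.2⟩, fun h => ⟨h.pos, h.box, h.disj⟩⟩

/-- the directional inequality with the conjectured value -/
theorem directional (r k t : ℕ) (v : ℝ) (hk : 1 ≤ k)
    (hv : (t < k ∧ r = k ^ 2 + 2 * t + 1 ∧ v = (k : ℝ) + (t : ℝ) / (k : ℝ)) ∨
       (t ≤ k ∧ r = k ^ 2 + 2 * t ∧ v = (k : ℝ) + (t : ℝ) / ((k : ℝ) + 1)))
    (x y θ s : Fin r → ℝ) (h : IsPacking x y θ s) (φ : ℝ) :
    ∑ i, s i / (|Real.cos (θ i - φ)| + |Real.sin (θ i - φ)|) ≤ v := by
  have hP := (isPacking_iff x y θ s).1 h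
  have hk0 : (0 : ℝ) < k := by exact_mod_cast hk
  rcases hv with ⟨-, hr, hv⟩ | ⟨-, hr, hv⟩
  · have hodd : Odd (r + k) := by
      obtain ⟨m, hm⟩ := Nat.even_mul_succ_self k
      refine ⟨m + t, ?_⟩
      have e : k ^ 2 + k = k * (k + 1) := by ring
      have e2 : k * (k + 1) = m + m := hm
      omega
    refine (hP.directional φ k hk hodd).trans (le_of_eq ?_)
    rw [hv, hr]
    push_cast
    field_simp
    ring
  · have hodd : Odd (r + (k + 1)) := by
      obtain ⟨m, hm⟩ := Nat.even_mul_succ_self k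
      refine ⟨m + t, ?_⟩
      have e : k ^ 2 + k = k * (k + 1) := by ring
      have e2 : k * (k + 1) = m + m := hm
      omega
    refine (hP.directional φ (k + 1) (by omega) hodd).trans (le_of_eq ?_)
    rw [hv, hr]
    push_cast
    field_simp
    ring

/-- For `r = k² + 2t + 1` with `t < k` and `v = k + t/k`, and for `r = k² + 2t` with `t ≤ k` and
`v = k + t/(k+1)`: (1) every packing of `r` squares of any directions in the unit square satisfies
`∑ s_i / (|cos (θ_i - φ)| + |sin (θ_i - φ)|) ≤ v` for every direction `φ`; (2) the supremum of the total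
side length of `r` mutually parallel squares (the common direction is free) is exactly `v`. -/
theorem result :
    ∀ (r k t : ℕ) (v : ℝ), 1 ≤ k →
      ((t < k ∧ r = k ^ 2 + 2 * t + 1 ∧ v = (k : ℝ) + (t : ℝ) / (k : ℝ)) ∨
       (t ≤ k ∧ r = k ^ 2 + 2 * t ∧ v = (k : ℝ) + (t : ℝ) / ((k : ℝ) + 1))) →
      (∀ x y θ s : Fin r → ℝ, IsPacking x y θ s → ∀ φ : ℝ,
        ∑ i, s i / (|Real.cos (θ i - φ)| + |Real.sin (θ i - φ)|) ≤ v) ∧
      sSup {S : ℝ | ∃ x y θ s : Fin r → ℝ, IsPacking x y θ s ∧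
        (∀ i j, ∃ m : ℤ, θ i - θ j = m * (Real.pi / 2)) ∧ S = ∑ i, s i} = v := by
  intro r k t v hk hv
  refine ⟨fun x y θ s h φ => directional r k t v hk hv x y θ s h φ, ?_⟩
  have hr : 0 < r := by
    rcases hv with ⟨-, hr, -⟩ | ⟨-, hr, -⟩
    · omega
    · have : 1 ≤ k ^ 2 := Nat.one_le_pow _ _ hk
      omega
  apply IsGreatest.csSup_eq
  constructor
  · obtain ⟨x, y, θ, s, hP, hθ, hs⟩ := lower r k t v hk hv
    exact ⟨x, y, θ, s, (isPacking_iff x y θ s).2 hP, fun i j => ⟨0, by rw [hθ, hθ]; simp⟩, hs.symm⟩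
  · rintro S ⟨x, y, θ, s, h, hpar, rfl⟩
    have h1 := directional r k t v hk hv x y θ s h (θ ⟨0, hr⟩)
    have h2 : ∀ i, |Real.cos (θ i - θ ⟨0, hr⟩)| + |Real.sin (θ i - θ ⟨0, hr⟩)| = 1 := by
      intro i
      obtain ⟨m, hm⟩ := hpar i ⟨0, hr⟩
      rw [hm]
      rcases Int.even_or_odd' m with ⟨n, hn | hn⟩
      · have e : (m : ℝ) * (Real.pi / 2) = n * Real.pi := by rw [hn]; push_cast; ring
        rw [e, Real.abs_cos_int_mul_pi, Real.sin_int_mul_pi]
        simp
      · have e : (m : ℝ) * (Real.pi / 2) = n * Real.pi + Real.pi / 2 := by rw [hn]; push_cast; ring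
        rw [e, Real.cos_add_pi_div_two, Real.sin_add_pi_div_two, Real.sin_int_mul_pi, Real.abs_cos_int_mul_pi]
        simp
    simp only [h2, div_one] at h1
    exact h1

end Pool.Agent.Results.MP_507520_co.MutuallyParallel
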