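import Pool.Agent.H10.SV.Conv

/-!
# Erdős's conjecture on squares in a square: stability for nearly parallel squares

Squares of arbitrary sides and arbitrary directions; the error depends only on the sum of the squares of the
sines of twice the directions.
-/

set_option autoImplicit false

/-- The closed square with corner `(x, y)`, side `s` and direction `θ` (as in the frozen statement). -/
def Pool.Agent.Results.MP_507520_co.NearlyParallel.Square (x y θ s : ℝ) : Set (ℝ × ℝ) :=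
  {p : ℝ × ℝ | ∃ a ∈ Set.Icc (0:ℝ) s, ∃ b ∈ Set.Icc (0:ℝ) s,
    p = (x + a * Real.cos θ - b * Real.sin θ, y + a * Real.sin θ + b * Real.cos θ)}

/-- `r` closed squares of positive sides `s i` and any directions `θ i`, inside the closed unit square,
with pairwise disjoint interiors. -/
def Pool.Agent.Results.MP_507520_co.NearlyParallel.IsPacking {r : ℕ} (x y θ s : Fin r → ℝ) : Prop :=
  (∀ i, 0 < s i) ∧
  (∀ i, Square (x i) (y i) (θ i) (s i) ⊆ Set.Icc (0:ℝ) 1 ×ˢ Set.Icc (0:ℝ) 1) ∧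
  (∀ i j, i ≠ j → Disjoint (interior (Square (x i) (y i) (θ i) (s i)))
    (interior (Square (x j) (y j) (θ j) (s j))))

namespace Pool.Agent.Results.MP_507520_co.NearlyParallel

open Pool.H10.SV

lemma core {r : ℕ} (Kb : ℕ) (hKb : 1 ≤ Kb) (j : ℤ) (hj : (r : ℤ) = (Kb : ℤ) ^ 2 + 2 * j + 1)
    (x y θ s : Fin r → ℝ) (hP : IsPacking x y θ s) :
    1 - 23 * (∑ i, Real.sin (2 * θ i) ^ 2) ^ ((1 : ℝ) / 8) ≤ (Kb : ℝ) ^ 2 + r - 2 * Kb * ∑ i, s i := by
  have hKr : (0 : ℝ) < Kb := by exact_mod_cast hKb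
  obtain ⟨q, hq, hr, ht⟩ := toPk x y θ s hP.1 hP.2.1 hP.2.2 (Kb : ℝ) hKr
  set σ := ∑ i, Real.sin (2 * θ i) ^ 2 with hσ
  have hσ0 : 0 ≤ σ := Finset.sum_nonneg fun i _ => sq_nonneg _
  have hσt : 4 * ∑ i, (q i).t ^ 2 = σ := by
    rw [hσ, Finset.mul_sum]
    apply Finset.sum_congr rfl
    intro i _
    rw [ht i, sq_abs, Real.sin_two_mul]; ring
  have hD : (Kb : ℝ) ^ 2 + r - 2 * Kb * ∑ i, s i = (Kb : ℝ) ^ 2 + Fintype.card (Fin r) - 4 * ∑ i, (q i).r := by
    rw [Finset.sum_congr rfl fun i _ => hr i, Fintype.card_fin, ← Finset.sum_div, ← Finset.mul_sum]; ring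
  apply le_of_forall_pos_le_add
  intro e he
  have hx0 : 0 ≤ σ ^ ((1 : ℝ) / 8) := Real.rpow_nonneg hσ0 _
  have h8 : (σ ^ ((1 : ℝ) / 8)) ^ 8 = σ := by
    rw [← Real.rpow_natCast (σ ^ ((1 : ℝ) / 8)) 8, ← Real.rpow_mul hσ0]; norm_num
  have := almost Kb hKb hq j (by rw [Fintype.card_fin]; exact hj) _ hD (σ ^ ((1 : ℝ) / 8) + e / 23) (by positivity)
    (by
      rw [hσt]
      calc σ = (σ ^ ((1 : ℝ) / 8)) ^ 8 := h8.symm
        _ ≤ _ := pow_le_pow_left₀ hx0 (by linarith [show 0 < e / 23 by positivity]) 8)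
  linarith

/-- For every `r` and every packing of `r` squares (any sides, any directions) in the unit square, the total
side length is at most `v + (12 / k) (∑ sin² (2 θ_i))^(1/8)`, where `v` is the conjectured value of `f(r)` and
`k = ⌊√r⌋` in case `r = k² + 2t + 1`, `r = k² + 2t`. -/
theorem result (r k t : ℕ) (v : ℝ) (hk : 1 ≤ k)
    (hv : (t < k ∧ r = k ^ 2 + 2 * t + 1 ∧ v = (k : ℝ) + (t : ℝ) / (k : ℝ)) ∨
     (t ≤ k ∧ r = k ^ 2 + 2 * t ∧ v = (k : ℝ) + (t : ℝ) / ((k : ℝ) + 1)))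
    (x y θ s : Fin r → ℝ) (hP : IsPacking x y θ s) :
      ∑ i, s i ≤ v + 12 / k * (∑ i, Real.sin (2 * θ i) ^ 2) ^ ((1 : ℝ) / 8) := by
  have hkr : (1 : ℝ) ≤ k := by exact_mod_cast hk
  have hσ0 : 0 ≤ ∑ i, Real.sin (2 * θ i) ^ 2 := Finset.sum_nonneg fun i _ => sq_nonneg _
  have hx0 : 0 ≤ (∑ i, Real.sin (2 * θ i) ^ 2) ^ ((1 : ℝ) / 8) := Real.rpow_nonneg hσ0 _
  rcases hv with ⟨ht, hr, hv⟩ | ⟨ht, hr, hv⟩
  · have hrr : (r : ℝ) = (k : ℝ) ^ 2 + 2 * t + 1 := by rw [hr]; push_cast; ring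
    have key := core k hk t (by rw [hr]; push_cast; ring) x y θ s hP
    set σ := (∑ i, Real.sin (2 * θ i) ^ 2) ^ ((1 : ℝ) / 8) with hσ
    set S := ∑ i, s i with hS
    have hkv : k * v = (k : ℝ) ^ 2 + t := by rw [hv]; field_simp
    have h1 : S * k ≤ (v + 12 / k * σ) * k := by
      have e : (v + 12 / k * σ) * k = k * v + 12 * σ := by field_simp
      rw [e, hkv]
      rw [hrr] at key
      linarith
    exact le_of_mul_le_mul_right h1 (by linarith)
  · have hrr : (r : ℝ) = (k : ℝ) ^ 2 + 2 * t := by rw [hr]; push_cast; ring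
    have key := core (k + 1) (by omega) ((t : ℤ) - k - 1) (by rw [hr]; push_cast; ring) x y θ s hP
    set σ := (∑ i, Real.sin (2 * θ i) ^ 2) ^ ((1 : ℝ) / 8) with hσ
    set S := ∑ i, s i with hS
    push_cast at key
    have hkv : ((k : ℝ) + 1) * v = (k : ℝ) ^ 2 + k + t := by rw [hv]; field_simp
    have h1 : S * (k + 1) ≤ (v + 12 / k * σ) * (k + 1) := by
      have e : (v + 12 / k * σ) * (k + 1) = (k + 1) * v + 12 * σ * ((k + 1) / k) := by field_simp
      have e2 : 1 ≤ ((k : ℝ) + 1) / k := by rw [le_div_iff₀ (by linarith)]; linarith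
      have e3 : 12 * σ ≤ 12 * σ * ((k + 1) / k) := by nlinarith
      rw [e, hkv]
      rw [hrr] at key
      linarith
    exact le_of_mul_le_mul_right h1 (by linarith)

end Pool.Agent.Results.MP_507520_co.NearlyParallel
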