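import Pool.Agent.H10.SV.Gain

/-!
# Erdős's conjecture on squares in a square: a uniform gain over the trivial bound

Squares of arbitrary sides and arbitrary directions.
-/

set_option autoImplicit false

/-- The closed square with corner `(x, y)`, side `s` and direction `θ` (as in the frozen statement). -/
def Pool.Agent.Results.MP_507520_co.UniformGain.Square (x y θ s : ℝ) : Set (ℝ × ℝ) :=
  {p : ℝ × ℝ | ∃ a ∈ Set.Icc (0:ℝ) s, ∃ b ∈ Set.Icc (0:ℝ) s,
    p = (x + a * Real.cos θ - b * Real.sin θ, y + a * Real.sin θ + b * Real.cos θ)}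

/-- `r` closed squares of positive sides `s i` and any directions `θ i`, inside the closed unit square,
with pairwise disjoint interiors. -/
def Pool.Agent.Results.MP_507520_co.UniformGain.IsPacking {r : ℕ} (x y θ s : Fin r → ℝ) : Prop :=
  (∀ i, 0 < s i) ∧
  (∀ i, Square (x i) (y i) (θ i) (s i) ⊆ Set.Icc (0:ℝ) 1 ×ˢ Set.Icc (0:ℝ) 1) ∧
  (∀ i j, i ≠ j → Disjoint (interior (Square (x i) (y i) (θ i) (s i)))
    (interior (Square (x j) (y j) (θ j) (s j))))

namespace Pool.Agent.Results.MP_507520_co.UniformGain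

open Pool.H10.SV

/-- There is an absolute constant `c > 0` such that the total side length of any packing of `r` squares (any
sides, any directions) in the unit square is at most `√r - c (√r - v)`, where `v` is the conjectured value of
`f(r)`: the trivial bound `√r` is improved by a fixed proportion of its distance to the conjectured value, for
every `r`. -/
theorem result : ∃ c : ℝ, 0 < c ∧ ∀ (r k t : ℕ) (v : ℝ), 1 ≤ k →
    ((t < k ∧ r = k ^ 2 + 2 * t + 1 ∧ v = (k : ℝ) + (t : ℝ) / (k : ℝ)) ∨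
     (t ≤ k ∧ r = k ^ 2 + 2 * t ∧ v = (k : ℝ) + (t : ℝ) / ((k : ℝ) + 1))) →
    ∀ x y θ s : Fin r → ℝ, IsPacking x y θ s →
      ∑ i, s i ≤ Real.sqrt r - c * (Real.sqrt r - v) := by
  obtain ⟨c, hc, h⟩ := gain
  refine ⟨c, hc, ?_⟩
  intro r k t v hk hv x y θ s hP
  have hkr : (1 : ℝ) ≤ k := by exact_mod_cast hk
  have ht0 : (0 : ℝ) ≤ t := Nat.cast_nonneg t
  rcases hv with ⟨ht, hr, hv⟩ | ⟨ht, hr, hv⟩
  · have htr : (t : ℝ) + 1 ≤ k := by exact_mod_cast ht
    have hrr : (r : ℝ) = (k : ℝ) ^ 2 + 2 * t + 1 := by rw [hr]; push_cast; ring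
    have hR2 : Real.sqrt r ^ 2 = r := Real.sq_sqrt (Nat.cast_nonneg r)
    have h1 : (k : ℝ) ≤ Real.sqrt r := Real.le_sqrt_of_sq_le (by rw [hrr]; linarith)
    have h2 : Real.sqrt r ≤ (k : ℝ) + 1 := by
      rw [Real.sqrt_le_left (by linarith), hrr]; nlinarith
    have hcast : ((k + 1 : ℕ) : ℝ) = (k : ℝ) + 1 := by push_cast; ring
    have key := h k (k + 1) r hk (by omega) (Or.inr rfl) (by rw [hr]; omega)
      ⟨t, by rw [hr]; push_cast; ring⟩ (by
        rw [hcast, abs_of_nonneg (by linarith), abs_of_nonpos (by linarith)]; ring)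
      x y θ s hP.1 hP.2.1 hP.2.2
    set R := Real.sqrt r with hR
    have e : 1 - (R - k) ^ 2 = 2 * k * (R - v) := by
      have : k * v = (k : ℝ) ^ 2 + t := by rw [hv]; field_simp
      rw [hrr] at hR2
      linear_combination (-1 : ℝ) * hR2 + 2 * this
    rw [e] at key
    have h3 : (c * (R - v)) * (2 * k) ≤ (R - ∑ i, s i) * (2 * k) := by linarith
    have := le_of_mul_le_mul_right h3 (by linarith)
    linarith
  · have htr : (t : ℝ) ≤ k := by exact_mod_cast ht
    have hrr : (r : ℝ) = (k : ℝ) ^ 2 + 2 * t := by rw [hr]; push_cast; ring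
    have hR2 : Real.sqrt r ^ 2 = r := Real.sq_sqrt (Nat.cast_nonneg r)
    have h1 : (k : ℝ) ≤ Real.sqrt r := Real.le_sqrt_of_sq_le (by rw [hrr]; linarith)
    have h2 : Real.sqrt r ≤ (k : ℝ) + 1 := by
      rw [Real.sqrt_le_left (by linarith), hrr]; nlinarith
    have hcast : ((k + 1 : ℕ) : ℝ) = (k : ℝ) + 1 := by push_cast; ring
    have hr1 : 1 ≤ r := by
      rw [hr]
      have : 1 ≤ k ^ 2 := Nat.one_le_pow _ _ hk
      omega
    have key := h (k + 1) k r (by omega) hk (Or.inl rfl) hr1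
      ⟨(t : ℤ) - k - 1, by rw [hr]; push_cast; ring⟩ (by
        rw [hcast, abs_of_nonpos (by linarith), abs_of_nonneg (by linarith)]; ring)
      x y θ s hP.1 hP.2.1 hP.2.2
    rw [hcast] at key
    set R := Real.sqrt r with hR
    have e : 1 - (R - (k + 1)) ^ 2 = 2 * (k + 1) * (R - v) := by
      have : ((k : ℝ) + 1) * v = (k : ℝ) ^ 2 + k + t := by rw [hv]; field_simp
      rw [hrr] at hR2
      linear_combination (-1 : ℝ) * hR2 + 2 * this
    rw [e] at key
    have h3 : (c * (R - v)) * (2 * (k + 1)) ≤ (R - ∑ i, s i) * (2 * (k + 1)) := by linarith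
    have := le_of_mul_le_mul_right h3 (by linarith)
    linarith

end Pool.Agent.Results.MP_507520_co.UniformGain
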